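import Pool.Agent.NDR.StmtsR
import Pool.Agent.NDR.StmtsC
import Pool.Agent.Helper22_ND.Adapt

/-!
# Squad NDR, block R, assembly: exponents of `z f'` and of the face polynomial
-/

set_option autoImplicit false

namespace Pool.Agent.NDR.H56

open Finset Pool.Agent.Helper30_Simp

section hats

variable {σ : Type} [Fintype σ]

theorem ex_inj {α β : σ →₀ ℕ} (h : ex α = ex β) : α = β := by
  ext i
  have h1 : ((α i : ℕ) : ℤ) = ((β i : ℕ) : ℤ) := congrFun h (some i)
  exact_mod_cast h1

theorem mem_hatS {K : Type} [Field K] {f : MvPolynomial σ K} {a : Option σ → ℤ} :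
    a ∈ hatS f ↔ ∃ α ∈ f.support, ex α = a := by
  simp only [hatS, Finset.mem_image]

theorem hat_ex {K : Type} [Field K] (f : MvPolynomial σ K) (α : σ →₀ ℕ) :
    hat f (ex α) = MvPolynomial.coeff α f := by
  classical
  unfold hat
  rw [Finsupp.finsetSum_apply]
  by_cases hα : α ∈ f.support
  · rw [Finset.sum_eq_single_of_mem _ hα, Finsupp.single_eq_same]
    intro β _ hβ
    rw [Finsupp.single_apply, if_neg (fun h => hβ (ex_inj h))]
  · rw [MvPolynomial.notMem_support_iff.1 hα]
    refine Finset.sum_eq_zero fun β hβ => ?_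
    rw [Finsupp.single_apply, if_neg]
    intro h
    exact hα (ex_inj h ▸ hβ)

theorem hat_support {K : Type} [Field K] (f : MvPolynomial σ K) : (hat f).support = hatS f := by
  classical
  ext a
  rw [Finsupp.mem_support_iff, mem_hatS]
  constructor
  · intro h
    unfold hat at h
    rw [Finsupp.finsetSum_apply] at h
    obtain ⟨α, hα, h1⟩ := Finset.exists_ne_zero_of_sum_ne_zero h
    rw [Finsupp.single_apply] at h1
    refine ⟨α, hα, ?_⟩
    by_contra h2
    exact h1 (if_neg h2)
  · rintro ⟨α, hα, rfl⟩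
    rw [hat_ex]
    exact MvPolynomial.mem_support_iff.1 hα

/-- integer exponents of a natural exponent -/
def zx (α : σ →₀ ℕ) : σ → ℤ := fun i => ((α i : ℕ) : ℤ)

theorem zx_inj {α β : σ →₀ ℕ} (h : zx α = zx β) : α = β := by
  ext i
  have h1 : ((α i : ℕ) : ℤ) = ((β i : ℕ) : ℤ) := congrFun h i
  exact_mod_cast h1

theorem hx_zx (α : σ →₀ ℕ) : hx 1 (zx α) = ex α := by
  funext v
  cases v <;> rfl

theorem toL_eq {K : Type} [Field K] (f : MvPolynomial σ K) :
    toL f = f.support.sum fun α => Finsupp.single (zx α) (MvPolynomial.coeff α f) := rfl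

theorem toL_zx {K : Type} [Field K] (f : MvPolynomial σ K) (α : σ →₀ ℕ) :
    toL f (zx α) = MvPolynomial.coeff α f := by
  classical
  rw [toL_eq, Finsupp.finsetSum_apply]
  by_cases hα : α ∈ f.support
  · rw [Finset.sum_eq_single_of_mem _ hα]
    · exact Finsupp.single_eq_same
    intro β _ hβ
    rw [Finsupp.single_apply, if_neg (fun h => hβ (zx_inj h))]
  · rw [MvPolynomial.notMem_support_iff.1 hα]
    refine Finset.sum_eq_zero fun β hβ => ?_
    rw [Finsupp.single_apply, if_neg]
    intro h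
    exact hα (zx_inj h ▸ hβ)

theorem mem_toZ {M : Finset (σ →₀ ℕ)} {a : σ → ℤ} : a ∈ toZ M ↔ ∃ α ∈ M, zx α = a := by
  unfold toZ
  rw [Finset.mem_image]
  rfl

theorem toL_support {K : Type} [Field K] (f : MvPolynomial σ K) :
    (toL f).support = toZ f.support := by
  classical
  ext a
  rw [Finsupp.mem_support_iff, mem_toZ]
  constructor
  · intro h
    rw [toL_eq, Finsupp.finsetSum_apply] at h
    obtain ⟨α, hα, h1⟩ := Finset.exists_ne_zero_of_sum_ne_zero h
    rw [Finsupp.single_apply] at h1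
    refine ⟨α, hα, ?_⟩
    by_contra h2
    exact h1 (if_neg h2)
  · rintro ⟨α, hα, rfl⟩
    rw [toL_zx]
    exact MvPolynomial.mem_support_iff.1 hα

theorem coeff_prt {K : Type} [Field K] (f : MvPolynomial σ K) (S : Finset (σ →₀ ℕ))
    (α : σ →₀ ℕ) [Decidable (α ∈ S)] :
    MvPolynomial.coeff α (prt f S) = if α ∈ S then MvPolynomial.coeff α f else 0 := by
  classical
  unfold prt
  rw [MvPolynomial.coeff_sum]
  simp only [MvPolynomial.coeff_monomial]
  rw [Finset.sum_ite_eq' S α (fun β => MvPolynomial.coeff β f)]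
  by_cases h : α ∈ S
  · rw [if_pos h, if_pos h]
  · rw [if_neg h, if_neg h]

theorem support_prt {K : Type} [Field K] (f : MvPolynomial σ K) (S : Finset (σ →₀ ℕ))
    (hS : S ⊆ f.support) : (prt f S).support = S := by
  classical
  ext α
  rw [MvPolynomial.mem_support_iff, coeff_prt]
  constructor
  · intro h
    by_contra h1
    exact h (if_neg h1)
  · intro h
    rw [if_pos h]
    exact MvPolynomial.mem_support_iff.1 (hS h)

end hats

section fp

variable {σ K : Type} [Field K] [Algebra ℂ K]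

theorem coeff_fpr (F : MvPolynomial σ ℂ) (I : Finset σ) (c : σ → K) (L : ℕ) (α : σ →₀ ℕ)
    (h : ∀ i ∈ I, α ≠ Finsupp.single i L) :
    MvPolynomial.coeff α (fpr F I c L) = algebraMap ℂ K (MvPolynomial.coeff α F) := by
  classical
  unfold fpr
  rw [MvPolynomial.coeff_add, MvPolynomial.coeff_map, MvPolynomial.coeff_sum,
    Finset.sum_eq_zero, add_zero]
  intro i hi
  rw [MvPolynomial.coeff_C_mul, MvPolynomial.coeff_X_pow, if_neg (Ne.symm (h i hi)), mul_zero]

theorem coeff_fpr_pow (F : MvPolynomial σ ℂ) (I : Finset σ) (c : σ → K) (L : ℕ) (hL0 : L ≠ 0)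
    (hF : ∀ α ∈ F.support, ∑ i ∈ I, α i < L) {i : σ} (hi : i ∈ I) :
    MvPolynomial.coeff (Finsupp.single i L) (fpr F I c L) = c i := by
  classical
  have hL : ∀ α ∈ F.support, α ≠ Finsupp.single i L := by
    rintro α hα rfl
    have h1 := hF _ hα
    rw [Finset.sum_eq_single_of_mem i hi] at h1
    · rw [Finsupp.single_eq_same] at h1
      exact lt_irrefl _ h1
    · intro j _ hj
      rw [Finsupp.single_apply, if_neg (Ne.symm hj)]
  have h0 : MvPolynomial.coeff (Finsupp.single i L) F = 0 := by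
    by_contra h1
    exact hL _ (MvPolynomial.mem_support_iff.2 h1) rfl
  unfold fpr
  rw [MvPolynomial.coeff_add, MvPolynomial.coeff_map, h0, map_zero, zero_add,
    MvPolynomial.coeff_sum]
  rw [Finset.sum_eq_single_of_mem i hi]
  · rw [MvPolynomial.coeff_C_mul, MvPolynomial.coeff_X_pow, if_pos rfl, mul_one]
  · intro j _ hj
    rw [MvPolynomial.coeff_C_mul, MvPolynomial.coeff_X_pow, if_neg, mul_zero]
    intro h
    rw [Finsupp.single_left_inj hL0] at h
    exact hj h

end fp

end Pool.Agent.NDR.H56
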