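import Pool.Agent.Helper56_NDR.Base

/-!
# Squad NDR, block R, assembly, part 1: the relation in the big cone at `ε = 0`
-/

set_option autoImplicit false

namespace Pool.Agent.NDR.H56

open Finset Pool.Agent.Helper30_Simp
open Pool.Agent.ND.H22 (mp mp_apply spc)

/-- what is used of the strictness lemma in the big cone (helper22) -/
def HatSat : Prop :=
  ∀ (σ : Type) [Fintype σ] (M : Finset (σ →₀ ℕ)) (κ : σ → ℕ) (N : ℕ) (P : Finset σ)
    (p : σ → ℝ), Dat M κ N P p → ∀ (K : Type) [Field K] [CharZero K] [IsAlgClosed K]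
    (f' : MvPolynomial σ K), NdC (ih (sup κ)) (hat f') → ∀ ph : Option σ → ℝ,
    (∀ i, ph (some i) = p i) → (∀ l : Option σ → ℤ, l none ≠ 0 → ∀ n : ℤ,
      ∑ v, ((l v : ℤ) : ℝ) * ph v ≠ n) → ∀ (R : Type) [CommRing R] [Algebra K R]
    (t : Option σ → R), (∀ i, t (some i) = 0) → ∀ r : R, (∀ a : R, r * a = 0 → a = 0) →
    ∀ x : (Option σ → ℤ) →₀ R,
    (∀ m ∈ x.support, InC (ih (sup κ)) (hatS f') (pt ph m)) →
    ∀ η : Option σ → (Option σ → ℤ) →₀ R,
    (∀ v ∈ ih (sup κ), ∀ m ∈ (η v).support, InC (ih (sup κ)) (hatS f') (pt ph m) ∧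
      m ∈ Fil (P.map Function.Embedding.some) v) →
    r • x = ∑ v ∈ ih (sup κ), opB (hatS f') (hatC R f') t v (η v) →
    ∃ η' : Option σ → (Option σ → ℤ) →₀ R,
      (∀ v ∈ ih (sup κ), ∀ m ∈ (η' v).support, InC (ih (sup κ)) (hatS f') (pt ph m) ∧
        m ∈ Fil (P.map Function.Embedding.some) v) ∧
      x = ∑ v ∈ ih (sup κ), opB (hatS f') (hatC R f') t v (η' v)

theorem mem_ih {σ : Type} {I : Finset σ} {v : Option σ} :
    v ∈ ih I ↔ v = none ∨ ∃ i ∈ I, v = some i := by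
  unfold ih
  cases v with
  | none => simp
  | some i => simp

theorem mp_support {k R R' X : Type} [Field k] [CommRing R] [Algebra k R] [CommRing R']
    [Algebra k R'] (φ : R →ₐ[k] R') (u : X →₀ R) : (mp φ u).support ⊆ u.support := by
  intro x hx
  rw [Finsupp.mem_support_iff, mp_apply] at hx
  rw [Finsupp.mem_support_iff]
  intro h
  exact hx (by rw [h, map_zero])

/-- clearing denominators in a finite family -/
theorem clear {R L : Type} [CommRing R] [IsDomain R] [Field L] [Algebra R L] [IsFractionRing R L]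
    {τ X : Type} [Fintype τ] (h : τ → X →₀ L) :
    ∃ (r : R) (g : τ → X →₀ R), r ≠ 0 ∧ (∀ v x, algebraMap R L (g v x) = algebraMap R L r * h v x) ∧
      ∀ v, (g v).support ⊆ (h v).support := by
  classical
  obtain ⟨b, hb⟩ := IsLocalization.exist_integer_multiples_of_finset (nonZeroDivisors R)
    (Finset.univ.biUnion fun v => (h v).support.image (h v))
  have h1 : ∀ a : L, ∃ y : R, (a = 0 → y = 0) ∧
      ((∃ v x, a = h v x) → algebraMap R L y = algebraMap R L b * a) := by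
    intro a
    by_cases ha : a = 0
    · exact ⟨0, fun _ => rfl, fun _ => by rw [ha, map_zero, mul_zero]⟩
    · by_cases hv : ∃ v x, a = h v x
      · obtain ⟨v, x, hvx⟩ := hv
        obtain ⟨y, hy⟩ := hb a (Finset.mem_biUnion.2 ⟨v, Finset.mem_univ _,
          Finset.mem_image.2 ⟨x, Finsupp.mem_support_iff.2 (hvx ▸ ha), hvx.symm⟩⟩)
        exact ⟨y, fun h0 => absurd h0 ha, fun _ => by rw [hy, Algebra.smul_def]⟩
      · exact ⟨0, fun _ => rfl, fun h0 => absurd h0 hv⟩
  choose g hg0 hg using h1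
  refine ⟨b, fun v => (h v).mapRange g (hg0 0 rfl), nonZeroDivisors.ne_zero b.2, fun v x => ?_,
    fun v => Finsupp.support_mapRange⟩
  rw [Finsupp.mapRange_apply]
  exact hg _ ⟨v, x, rfl⟩

variable {σ : Type} [Fintype σ]

/-- the sum over `sup κ` is the full sum -/
theorem sum_sup (κ : σ → ℕ) (g : σ → ℤ) :
    ∑ i ∈ sup κ, (κ i : ℤ) * g i = ∑ i, (κ i : ℤ) * g i := by
  refine Finset.sum_subset (Finset.subset_univ _) fun i _ hi => ?_
  have : κ i = 0 := by
    by_contra h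
    exact hi (Finset.mem_filter.2 ⟨Finset.mem_univ _, h⟩)
  rw [this, Nat.cast_zero, zero_mul]

theorem sup_nonempty {M : Finset (σ →₀ ℕ)} {κ : σ → ℕ} {N : ℕ} {P : Finset σ} {p : σ → ℝ}
    (D : Dat M κ N P p) : (sup κ).Nonempty := by
  obtain ⟨α, hα⟩ := D.ne
  have h1 : dot κ α = N := (Finset.mem_filter.1 hα).2
  have h2 : dot κ α ≠ 0 := by have := D.pos; omega
  unfold dot at h2
  obtain ⟨i, -, hi⟩ := Finset.exists_ne_zero_of_sum_ne_zero h2
  exact ⟨i, Finset.mem_filter.2 ⟨Finset.mem_univ _, fun h => hi (by rw [h, zero_mul])⟩⟩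

/-- the exponents of `z f'` -/
theorem hatS_fpr {K : Type} [Field K] [Algebra ℂ K] {F : MvPolynomial σ ℂ} {κ : σ → ℕ} {N : ℕ}
    {c : σ → K} {L : ℕ} (hge : ∀ α ∈ F.support, N ≤ dot κ α) (hL2 : ∀ i ∈ sup κ, N < L * κ i)
    {a : Option σ → ℤ} (ha : a ∈ hatS (fpr F (sup κ) c L)) :
    a none = 1 ∧ (N : ℤ) ≤ ∑ i, (κ i : ℤ) * a (some i) ∧ ∀ i, 0 ≤ a (some i) := by
  classical
  obtain ⟨α, hα, rfl⟩ := mem_hatS.1 ha
  have hnn : ∀ i, (0 : ℤ) ≤ ex α (some i) := fun i => Int.natCast_nonneg (α i)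
  refine ⟨rfl, ?_, hnn⟩
  by_cases h : ∀ i ∈ sup κ, α ≠ Finsupp.single i L
  · have h1 := coeff_fpr F (sup κ) c L α h
    have h2 : α ∈ F.support := by
      rw [MvPolynomial.mem_support_iff]
      intro h0
      rw [h0, map_zero] at h1
      exact (MvPolynomial.mem_support_iff.1 hα) h1
    have h3 := hge α h2
    have h4 : ((dot κ α : ℕ) : ℤ) = ∑ i, (κ i : ℤ) * ex α (some i) := by
      unfold dot
      push_cast
      rfl
    rw [← h4]
    exact_mod_cast h3
  · push Not at h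
    obtain ⟨i, hi, rfl⟩ := h
    have h1 := hL2 i hi
    have h2 : ((κ i * L : ℕ) : ℤ) ≤ ∑ j, (κ j : ℤ) * ex (Finsupp.single i L) (some j) := by
      refine le_trans (le_of_eq ?_) (Finset.single_le_sum (f := fun j => (κ j : ℤ) *
        ex (Finsupp.single i L) (some j)) (fun j _ => mul_nonneg (Int.natCast_nonneg _) (hnn j))
        (Finset.mem_univ i))
      show ((κ i * L : ℕ) : ℤ) = (κ i : ℤ) * (((Finsupp.single i L : σ →₀ ℕ) i : ℕ) : ℤ)
      rw [Finsupp.single_eq_same]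
      push_cast
      ring
    refine le_trans ?_ h2
    rw [mul_comm]
    exact_mod_cast h1.le

theorem pow_mem {K : Type} [Field K] [Algebra ℂ K] {F : MvPolynomial σ ℂ} {I : Finset σ}
    {c : σ → K} {L : ℕ} (hL0 : L ≠ 0) (hc : ∀ i, c i ≠ 0)
    (hF : ∀ α ∈ F.support, ∑ i ∈ I, α i < L) {i : σ} (hi : i ∈ I) :
    ∃ a ∈ hatS (fpr F I c L), a (some i) = L ∧ ∀ j ∈ I, j ≠ i → a (some j) = 0 := by
  classical
  refine ⟨ex (Finsupp.single i L), mem_hatS.2 ⟨_, ?_, rfl⟩, ?_, fun j _ hj => ?_⟩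
  · rw [MvPolynomial.mem_support_iff, coeff_fpr_pow F I c L hL0 hF hi]
    exact hc i
  · show (((Finsupp.single i L : σ →₀ ℕ) i : ℕ) : ℤ) = L
    rw [Finsupp.single_eq_same]
  · show (((Finsupp.single i L : σ →₀ ℕ) j : ℕ) : ℤ) = 0
    rw [Finsupp.single_apply, if_neg (Ne.symm hj), Nat.cast_zero]

/-- integral thresholds -/
theorem thr (l : Option σ → ℤ) (ph : Option σ → ℝ) (m : Option σ → ℤ) :
    ⌈∑ v, ((l v : ℤ) : ℝ) * (1 - ph v)⌉ ≤ pr l m ↔ 0 ≤ ∑ v, ((l v : ℤ) : ℝ) * pt ph m v := by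
  rw [Int.ceil_le]
  have h1 : ((pr l m : ℤ) : ℝ) = ∑ v, ((l v : ℤ) : ℝ) * ((m v : ℤ) : ℝ) := by
    unfold pr
    push_cast
    rfl
  have h2 : ∑ v, ((l v : ℤ) : ℝ) * pt ph m v =
      ∑ v, ((l v : ℤ) : ℝ) * ((m v : ℤ) : ℝ) - ∑ v, ((l v : ℤ) : ℝ) * (1 - ph v) := by
    rw [← Finset.sum_sub_distrib]
    refine Finset.sum_congr rfl fun v _ => ?_
    unfold pt
    ring
  rw [h1, h2]
  constructor <;> intro h <;> linarith

theorem big (hRah : RahStmt) (hCon : ConStmt) (hDlt : DltStmt) (hCho : ChoStmt) (hSat : HatSat)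
    (F : MvPolynomial σ ℂ) (κ : σ → ℕ) (N : ℕ) (P : Finset σ)
    (p : σ → ℝ) (hND : ∀ u : σ → ℕ, TorusSmooth (prt F (fcn F.support u)))
    (D : Dat F.support κ N P p)
    (hb : (Helper6_Mono.bfun F).eval (-(((∑ i, κ i : ℕ) : ℂ) / (N : ℕ))) ≠ 0) :
    ∃ (K : Type) (_ : Field K) (_ : Algebra ℂ K) (c : σ → K) (L : ℕ) (β : ℂ)
      (X : (Option σ → ℤ) →₀ K) (h : Option σ → (Option σ → ℤ) →₀ K) (t : Option σ → K),
      β ≠ 0 ∧ (∀ i, c i ≠ 0) ∧ (∀ α ∈ F.support, ∑ i ∈ sup κ, α i < L) ∧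
      (∀ i ∈ sup κ, N < L * κ i) ∧ (∀ i, t (some i) = 0) ∧
      (N : K) * t none = ((∑ i, κ i : ℕ) : K) ∧
      Finsupp.single (one1 (sup κ)) (algebraMap ℂ K β) + X =
        ∑ v ∈ ih (sup κ), opB (hatS (fpr F (sup κ) c L)) (hat (fpr F (sup κ) c L)) t v (h v) ∧
      (∀ m ∈ X.support, 0 < klv κ N m) ∧
      (∀ v ∈ ih (sup κ), ∀ m ∈ (h v).support, 0 ≤ klv κ N m ∧
        m ∈ Fil (P.map Function.Embedding.some) v ∧
        (klv κ N m = 0 → InC (sup κ) (toZ (lev F.support κ N)) (pt p fun i => m (some i)))) := by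
  classical
  obtain ⟨b, K, _, _, _, c, δ₀, hb0, hc, hδ₀, hall⟩ := hCho σ F κ N P p hND D hb
  have hK0 : CharZero K := charZero_of_injective_algebraMap (algebraMap ℂ K).injective
  have hNpos : (0 : ℝ) < (N : ℝ) := by have := D.pos; exact_mod_cast this
  -- the choice of `δ`
  obtain ⟨δ, hδ, hδ1, hgen⟩ := hDlt (Option σ) none (phat κ N p 0) (min δ₀ (1 / (N : ℝ)))
    (lt_min hδ₀ (by positivity))
  obtain ⟨L, hL1, hL2, hNd, hrel, hlev⟩ := hall δ hδ (hδ1.le.trans (min_le_left _ _))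
  have hδN : (N : ℝ) * δ < 1 := by
    have h1 : δ < 1 / (N : ℝ) := lt_of_lt_of_le hδ1 (min_le_right _ _)
    rw [lt_div_iff₀ hNpos] at h1
    linarith
  have hS := fun a ha => hatS_fpr (c := c) (L := L) D.ge hL2 (a := a) ha
  have hL0 : L ≠ 0 := by
    rintro rfl
    obtain ⟨i, hi⟩ := sup_nonempty D
    have := hL2 i hi
    omega
  have hpow := fun i hi => pow_mem (F := F) (I := sup κ) (c := c) hL0 hc hL1 (i := i) hi
  obtain ⟨f', hf'⟩ : ∃ f', f' = fpr F (sup κ) c L := ⟨_, rfl⟩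
  obtain ⟨ph, hph⟩ : ∃ ph, ph = phat κ N p δ := ⟨_, rfl⟩
  obtain ⟨α, hα⟩ : ∃ α : ℂ, α = ((∑ i, κ i : ℕ) : ℂ) / (N : ℕ) := ⟨_, rfl⟩
  rw [← hα] at hb0
  rw [← hf'] at hNd hrel hlev hS hpow
  rw [← hph] at hrel hlev
  have hphn : ph none = (∑ i, (κ i : ℝ) * p i) / N - δ + 1 := by rw [hph]; rfl
  have hphs : ∀ i, ph (some i) = p i := fun i => by rw [hph]; rfl
  have hph0 : phat κ N p 0 none = (∑ i, (κ i : ℝ) * p i) / N - 0 + 1 := rfl
  have hgen' : ∀ l : Option σ → ℤ, l none ≠ 0 → ∀ n : ℤ, ∑ v, ((l v : ℤ) : ℝ) * ph v ≠ n := by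
    intro l hl n h0
    refine hgen l hl n ?_
    rw [← h0, Fintype.sum_option, Fintype.sum_option, hphn, hph0]
    have h1 : ∀ i : σ, phat κ N p 0 (some i) = ph (some i) := fun i => by rw [hphs]; rfl
    simp only [h1]
    ring
  -- the cone
  obtain ⟨H, hH1, hH2⟩ := hCon σ (sup κ) (hatS f') L (Nat.pos_of_ne_zero hL0)
    (fun a ha i _ => (hS a ha).2.2 i) hpow
  -- the relation over `K[ε]`
  obtain ⟨s, hs⟩ : ∃ s : Polynomial K, s = Polynomial.X - Polynomial.C (algebraMap ℂ K α) :=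
    ⟨_, rfl⟩
  obtain ⟨X, h, hr1, hr2, hr3, hr4⟩ := hrel (Polynomial K) s
  obtain ⟨T, hT⟩ : ∃ T, T = Finsupp.single (one1 (sup κ)) (Polynomial.aeval s b) + X := ⟨_, rfl⟩
  rw [← hT] at hr1
  have hTs : ∀ m ∈ T.support, InC (ih (sup κ)) (hatS f') (pt ph m) := by
    intro m hm
    rw [hT] at hm
    rcases Finset.mem_union.1 (Finsupp.support_add hm) with h1 | h1
    · have h2 := Finset.mem_singleton.1 (Finsupp.support_single_subset h1)
      rw [h2]
      exact hr4
    · exact (hr3 m h1).2.2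
  -- over the fraction field
  obtain ⟨φ, hφ⟩ : ∃ φ : Polynomial K →ₐ[K] FractionRing (Polynomial K),
      φ = IsScalarTower.toAlgHom K (Polynomial K) (FractionRing (Polynomial K)) := ⟨_, rfl⟩
  have hφa : ∀ x, φ x = algebraMap (Polynomial K) (FractionRing (Polynomial K)) x := fun x => by
    rw [hφ]; rfl
  have hφi : Function.Injective φ := fun x y hxy => by
    rw [hφa, hφa] at hxy
    exact IsFractionRing.injective (Polynomial K) (FractionRing (Polynomial K)) hxy
  have hrL := spc φ (act := ih (sup κ)) (A := hatS f') (c := fun a => hat f' a) (t := shf s)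
    (x := T) (η := h) hr1
  obtain ⟨h', hh1, hh2⟩ := hRah (Option σ) (FractionRing (Polynomial K)) (hatS f')
    (fun a => algebraMap K (FractionRing (Polynomial K)) (hat f' a)) (fun v => φ (shf s v))
    (ih (sup κ)) (P.map Function.Embedding.some)
    {m | ∀ i ∈ sup κ, 0 ≤ ((m (some i) : ℤ) : ℝ) - 1 + p i} H
    (fun l => ⌈∑ v, ((l v : ℤ) : ℝ) * (1 - ph v)⌉)
    (by
      intro v hv
      obtain ⟨i, hi, rfl⟩ := Finset.mem_map.1 hv
      exact mem_ih.2 (Or.inr ⟨i, D.sub hi, rfl⟩))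
    (by
      intro v hv
      obtain ⟨i, hi, rfl⟩ := Finset.mem_map.1 hv
      exact map_zero φ)
    (by
      intro a ha v hv
      obtain ⟨i, hi, rfl⟩ := Finset.mem_map.1 hv
      exact (hS a ha).2.2 i)
    (by
      intro m hm a ha i hi
      have h1 := hm i hi
      have h2 : (0 : ℝ) ≤ ((a (some i) : ℤ) : ℝ) := by exact_mod_cast (hS a ha).2.2 i
      rw [Pi.add_apply, Int.cast_add]
      linarith)
    (fun l hl => (hH1 l hl).2.1) (fun l hl => (hH1 l hl).2.2)
    (by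
      intro l hl n _ h0
      rw [Fintype.sum_option] at h0
      have h1 : ∀ i : σ, ((l (some i) : ℤ) : FractionRing (Polynomial K)) *
          φ (shf s (some i)) = 0 := fun i => by
        have : shf s (some i) = 0 := rfl
        rw [this, map_zero, mul_zero]
      rw [Finset.sum_eq_zero fun i _ => h1 i, add_zero] at h0
      have h2 : shf s (none : Option σ) = -s := rfl
      rw [h2] at h0
      have h3 : φ ((n : Polynomial K) - ((l none : ℤ) : Polynomial K) * s) = 0 := by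
        rw [map_sub, map_mul, map_intCast, map_intCast, ← h0, map_neg]
        ring
      have h4 := hφi (h3.trans (map_zero φ).symm)
      have h5 := congrArg (fun q => Polynomial.coeff q 1) h4
      simp only [hs, Polynomial.coeff_sub, Polynomial.coeff_zero] at h5
      rw [← Polynomial.C_eq_intCast, ← Polynomial.C_eq_intCast, Polynomial.coeff_C_mul,
        Polynomial.coeff_sub, Polynomial.coeff_X_one, Polynomial.coeff_C_ne_zero one_ne_zero,
        Polynomial.coeff_C_ne_zero one_ne_zero] at h5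
      have h6 : ((l none : ℤ) : K) = 0 := by linear_combination -h5
      exact (hH1 l hl).1 (by exact_mod_cast h6))
    (mp φ T) (fun v => mp φ (h v)) hrL
    (by
      intro l hl m hm
      rw [thr]
      exact ((hH2 _).1 (hTs m (mp_support φ T hm))).2 l hl)
    (by
      intro v hv m hm
      obtain ⟨h1, h2⟩ := hr2 v hv m (mp_support φ (h v) hm)
      refine ⟨fun i hi => ?_, fun w hw => ?_⟩
      · have h3 := D.ge1 i hi
        have h4 : (0 : ℝ) ≤ ((m (some i) : ℤ) : ℝ) := by exact_mod_cast h1 (some i)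
        linarith
      · obtain ⟨i, hi, rfl⟩ := Finset.mem_map.1 hw
        exact ⟨h1 _, fun h3 => h2 i (D.sub hi) h3⟩)
  -- clear the denominators
  obtain ⟨r, g, hr0, hg, hgs⟩ := clear (R := Polynomial K) (L := FractionRing (Polynomial K)) h'
  have hgφ : ∀ v, mp φ (g v) = φ r • h' v := by
    intro v
    ext m
    rw [mp_apply, Finsupp.smul_apply, smul_eq_mul, hφa, hφa, hg]
  have hrR : r • T = ∑ v ∈ ih (sup κ), opB (hatS f') (hatC (Polynomial K) f') (shf s) v (g v) := by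
    have h1 : mp φ (r • T) = mp φ (∑ v ∈ ih (sup κ),
        opB (hatS f') (hatC (Polynomial K) f') (shf s) v (g v)) := by
      rw [Pool.Agent.ND.H22.mp_smul, hh1, Finset.smul_sum, Pool.Agent.ND.H22.mp_sum]
      refine Finset.sum_congr rfl fun v _ => ?_
      rw [show hatC (Polynomial K) f' = fun a => algebraMap K (Polynomial K) (hat f' a) from rfl,
        Pool.Agent.ND.H22.mp_opB_fam, hgφ, opB_smul]
    ext m : 1
    have h2 := congrArg (fun u => u m) h1
    simp only [mp_apply] at h2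
    exact hφi h2
  obtain ⟨η, hη1, hη2⟩ := hSat σ F.support κ N P p D K f' hNd ph hphs hgen' (Polynomial K)
    (shf s) (fun i => rfl) r (fun a ha => (mul_eq_zero.1 ha).resolve_left hr0) T hTs g
    (by
      intro v hv m hm
      obtain ⟨h1, h2, h3⟩ := hh2 v hv m (hgs v hm)
      refine ⟨(hH2 _).2 ⟨fun i hi => ?_, fun l hl => (thr l ph m).1 (h3 l hl)⟩, h2⟩
      unfold pt
      rw [hphs]
      exact h1 i hi) hrR
  -- `ε = 0`
  obtain ⟨ψ, hψ⟩ : ∃ ψ : Polynomial K →ₐ[K] K, ψ = Polynomial.aeval (0 : K) := ⟨_, rfl⟩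
  have hψs : ψ s = algebraMap ℂ K (-α) := by
    rw [hψ, hs, map_sub, Polynomial.aeval_X, Polynomial.aeval_C, map_neg, zero_sub]
    rfl
  have hψb : ψ (Polynomial.aeval s b) = algebraMap ℂ K (b.eval (-α)) := by
    have h1 : ψ (Polynomial.aeval s b) = Polynomial.aeval (ψ s) b :=
      (Polynomial.aeval_algHom_apply (ψ.restrictScalars ℂ) s b).symm
    rw [h1, hψs, Polynomial.aeval_algebraMap_apply_eq_algebraMap_eval]
  have hrK := spc ψ (act := ih (sup κ)) (A := hatS f') (c := fun a => hat f' a) (t := shf s)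
    (x := T) (η := η) hη2
  have hTψ : mp ψ T = Finsupp.single (one1 (sup κ)) (algebraMap ℂ K (b.eval (-α))) + mp ψ X := by
    rw [hT, Pool.Agent.ND.H22.mp_add, Pool.Agent.ND.H22.mp_single, hψb]
  refine ⟨K, inferInstance, inferInstance, c, L, b.eval (-α), mp ψ X, fun v => mp ψ (η v),
    fun v => ψ (shf s v), hb0, hc, hL1, hL2, fun i => map_zero ψ, ?_, ?_, ?_, ?_⟩
  · show (N : K) * ψ (-s) = _
    rw [map_neg, hψs, map_neg, neg_neg, hα, map_div₀, map_natCast, map_natCast]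
    have : (N : K) ≠ 0 := by
      have := D.pos
      exact_mod_cast this.ne'
    field_simp
  · rw [← hTψ, ← hf']
    exact hrK
  · intro m hm
    obtain ⟨-, h2, -⟩ := hr3 m (mp_support ψ X hm)
    unfold klv
    rw [sum_sup κ (fun i => m (some i) - 1)] at h2
    linarith
  · intro v hv m hm
    obtain ⟨h1, h2⟩ := hη1 v hv m (mp_support ψ (η v) hm)
    refine ⟨?_, h2, fun h3 => hlev m ?_ h1⟩
    · obtain ⟨l, hl0, hl⟩ := h1
      have e1 : ∑ i, (κ i : ℝ) * pt ph m (some i) =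
          ∑ a ∈ hatS f', l a * ∑ i, (κ i : ℝ) * ((a (some i) : ℤ) : ℝ) := by
        rw [Finset.sum_congr rfl fun a _ => Finset.mul_sum _ _ _, Finset.sum_comm]
        refine Finset.sum_congr rfl fun i _ => ?_
        by_cases hi : κ i = 0
        · rw [hi, Nat.cast_zero, zero_mul]
          refine (Finset.sum_eq_zero fun a _ => ?_).symm
          rw [zero_mul, mul_zero]
        · rw [hl (some i) (mem_ih.2 (Or.inr ⟨i, Finset.mem_filter.2 ⟨Finset.mem_univ _, hi⟩, rfl⟩)),
            Finset.mul_sum]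
          refine Finset.sum_congr rfl fun a _ => ?_
          ring
      have e2 : pt ph m none = ∑ a ∈ hatS f', l a := by
        rw [hl none (mem_ih.2 (Or.inl rfl))]
        refine Finset.sum_congr rfl fun a ha => ?_
        rw [(hS a ha).1, Int.cast_one, mul_one]
      have e3 : (N : ℝ) * pt ph m none ≤ ∑ i, (κ i : ℝ) * pt ph m (some i) := by
        rw [e1, e2, Finset.mul_sum]
        refine Finset.sum_le_sum fun a ha => ?_
        have h4 : ((N : ℤ) : ℝ) ≤ ((∑ i, (κ i : ℤ) * a (some i) : ℤ) : ℝ) :=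
          Int.cast_le.2 (hS a ha).2.1
        push_cast at h4
        rw [mul_comm]
        exact mul_le_mul_of_nonneg_left h4 (hl0 a)
      have e4 : ((klv κ N m : ℤ) : ℝ) = ∑ i, (κ i : ℝ) * pt ph m (some i) -
          (N : ℝ) * pt ph m none - N * δ := by
        have e5 : ∑ i, (κ i : ℝ) * pt ph m (some i) =
            ∑ i, (κ i : ℝ) * (((m (some i) : ℤ) : ℝ) - 1) + ∑ i, (κ i : ℝ) * p i := by
          rw [← Finset.sum_add_distrib]
          refine Finset.sum_congr rfl fun i _ => ?_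
          unfold pt
          rw [hphs]
          ring
        have e6 : (N : ℝ) * pt ph m none = N * ((m none : ℤ) : ℝ) + ∑ i, (κ i : ℝ) * p i
            - N * δ := by
          unfold pt
          rw [hphn]
          field_simp
          ring
        rw [e5, e6]
        unfold klv
        push_cast
        ring
      have e7 : (-1 : ℝ) < ((klv κ N m : ℤ) : ℝ) := by
        rw [e4]
        linarith
      have e8 : (-1 : ℤ) < klv κ N m := by exact_mod_cast e7
      omega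
    · unfold klv at h3
      rw [sum_sup κ (fun i => m (some i) - 1)]
      linarith

end Pool.Agent.NDR.H56
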