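import Pool.Agent.Helper56_NDR.Big
import Pool.Agent.Helper22_ND.Use
import Pool.Agent.Helper45_NDR.RAI
import Pool.Agent.Helper99_NDR.RAH
import Pool.Agent.Helper70_NDR.CONE
import Pool.Agent.Helper26_NDR.DLT
import Pool.Agent.Helper2_NDR.PRZ
import Pool.Agent.Helper15_NDR.DSC
import Pool.Agent.Helper24_NDR.NDP
import Pool.Agent.Helper15_NDR.MWE

/-!
# Squad NDR, block R: assembly

`res : GLStmt → ChoStmt → RESStmt`.
-/

set_option autoImplicit false

namespace Pool.Agent.NDR.H56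

open Finset Pool.Agent.Helper30_Simp

theorem hatSat (hGL : GLStmt) : HatSat := by
  intro σ _ M κ N P p D K _ _ _ f' hNd ph hph hδ R _ _ t ht r hr x hx η hη hrel
  obtain ⟨η', h1, h2⟩ := Pool.Agent.ND.H22.hat_sat hGL D hph hδ f' hNd ht hx hr η hη hrel
  exact ⟨η', fun v _ => h1 v, h2⟩

section congr

variable {τ R : Type} [CommRing R]

theorem opB_congr {A : Finset (τ → ℤ)} {c c' : (τ → ℤ) → R} (hc : ∀ a ∈ A, c a = c' a)
    (t : τ → R) (v : τ) (h : (τ → ℤ) →₀ R) : opB A c t v h = opB A c' t v h := by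
  ext m
  rw [opB_apply, opB_apply]
  congr 1
  exact Finset.sum_congr rfl fun a ha => by rw [hc a ha]

end congr

variable {σ : Type} [Fintype σ]

theorem dot_cast (κ : σ → ℕ) (α : σ →₀ ℕ) :
    ((dot κ α : ℕ) : ℤ) = ∑ i, (κ i : ℤ) * zx α i := by
  unfold dot zx
  push_cast
  rfl

theorem fcA_eq {K : Type} [Field K] [Algebra ℂ K] {F : MvPolynomial σ ℂ} {κ : σ → ℕ} {N : ℕ}
    {c : σ → K} {L : ℕ} (hL1 : ∀ α ∈ F.support, ∑ i ∈ sup κ, α i < L)
    (hL2 : ∀ i ∈ sup κ, N < L * κ i) :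
    fcA (hatS (fpr F (sup κ) c L)) κ N = toZ (lev F.support κ N) ∧
    ∀ a ∈ toZ (lev F.support κ N), hat (fpr F (sup κ) c L) (hx 1 a) =
      algebraMap ℂ K (toL (prt F (lev F.support κ N)) a) := by
  classical
  have hne : ∀ α : σ →₀ ℕ, dot κ α = N → ∀ i ∈ sup κ, α ≠ Finsupp.single i L := by
    rintro α hα i hi rfl
    have h1 := hL2 i hi
    have h2 : dot κ (Finsupp.single i L : σ →₀ ℕ) = κ i * L := by
      unfold dot
      rw [Finset.sum_eq_single i]
      · rw [Finsupp.single_eq_same]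
        rfl
      · intro j _ hj
        rw [Finsupp.single_apply, if_neg (Ne.symm hj)]
        simp
      · intro h
        exact absurd (Finset.mem_univ i) h
    rw [h2, mul_comm] at hα
    omega
  constructor
  · ext a
    unfold fcA
    rw [Finset.mem_image, mem_toZ]
    constructor
    · rintro ⟨b, hb, rfl⟩
      rw [Finset.mem_filter, mem_hatS] at hb
      obtain ⟨⟨α, hα, rfl⟩, hb2⟩ := hb
      have h1 : dot κ α = N := by
        have := dot_cast κ α
        have h2 : ∑ i, (κ i : ℤ) * zx α i = ∑ i, (κ i : ℤ) * ex α (some i) := rfl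
        rw [h2, hb2] at this
        exact_mod_cast this
      refine ⟨α, ?_, rfl⟩
      unfold lev
      rw [Finset.mem_filter]
      refine ⟨?_, h1⟩
      rw [MvPolynomial.mem_support_iff] at hα ⊢
      rw [coeff_fpr F (sup κ) c L α (hne α h1)] at hα
      intro h0
      exact hα (by rw [h0, map_zero])
    · rintro ⟨α, hα, rfl⟩
      unfold lev at hα
      rw [Finset.mem_filter] at hα
      refine ⟨ex α, ?_, rfl⟩
      rw [Finset.mem_filter, mem_hatS]
      refine ⟨⟨α, ?_, rfl⟩, ?_⟩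
      · rw [MvPolynomial.mem_support_iff, coeff_fpr F (sup κ) c L α (hne α hα.2)]
        intro h0
        have h1 := (algebraMap ℂ K).injective (h0.trans (map_zero _).symm)
        exact (MvPolynomial.mem_support_iff.1 hα.1) h1
      · have h1 := dot_cast κ α
        rw [hα.2] at h1
        exact h1.symm
  · intro a ha
    obtain ⟨α, hα, rfl⟩ := mem_toZ.1 ha
    have hα' := hα
    unfold lev at hα'
    rw [Finset.mem_filter] at hα'
    rw [hx_zx, hat_ex, toL_zx, coeff_fpr F (sup κ) c L α (hne α hα'.2), coeff_prt, if_pos hα]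

/-- **block R** -/
theorem res_of (hGL : GLStmt) (hCho : ChoStmt) (hRah : RahStmt) (hCon : ConStmt)
    (hDlt : DltStmt) (hPrz : PrzStmt) (hDsc : DscStmt) (hNdp : NdpStmt) : RESStmt := by
  classical
  intro σ _ F κ N P p hND D hb
  obtain ⟨K, _, _, c, L, β, X, h, t, hβ, hc, hL1, hL2, ht, htn, hrel, hX, hh⟩ :=
    big hRah hCon hDlt hCho (hatSat hGL) F κ N P p hND D hb
  have hK0 : CharZero K := charZero_of_injective_algebraMap (algebraMap ℂ K).injective
  have hS := fun a ha => hatS_fpr (c := c) (L := L) D.ge hL2 (a := a) ha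
  obtain ⟨hA, hcA⟩ := fcA_eq (F := F) (c := c) hL1 hL2
  obtain ⟨h1, hr1, hs1⟩ := hPrz σ K (hatS (fpr F (sup κ) c L)) (hat (fpr F (sup κ) c L)) t κ N P
    (algebraMap ℂ K β) X h D.pos D.sub ht htn (fun a ha => ⟨(hS a ha).1, (hS a ha).2.1⟩) hrel hX
    (fun v hv m hm => ⟨(hh v hv m hm).1, (hh v hv m hm).2.1⟩)
  obtain ⟨g, hg⟩ : ∃ g, g = toL (prt F (lev F.support κ N)) := ⟨_, rfl⟩
  have hgs : g.support = toZ (lev F.support κ N) := by
    rw [hg, toL_support, support_prt F (lev F.support κ N) (Finset.filter_subset _ _)]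
  have hr2 : Finsupp.single (fun i => if κ i = 0 then (0 : ℤ) else 1) (algebraMap ℂ K β) =
      ∑ i ∈ sup κ, opB (toZ (lev F.support κ N)) (fun a => algebraMap ℂ K (g a)) 0 i (h1 i) := by
    rw [hr1, hA]
    refine Finset.sum_congr rfl fun i _ => opB_congr (fun a ha => ?_) 0 i (h1 i)
    rw [hg]
    exact hcA a ha
  obtain ⟨h2, hr3, hs2⟩ := hDsc σ ℂ K (toZ (lev F.support κ N)) (fun a => g a) (sup κ) _ β h1 hr2
  have hm0 : InC (sup κ) (toZ (lev F.support κ N))
      (pt p fun i => if κ i = 0 then (0 : ℤ) else 1) := by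
    obtain ⟨l, hl0, hl⟩ := D.inC
    refine ⟨l, hl0, fun i hi => ?_⟩
    rw [← hl i hi]
    have h3 : κ i ≠ 0 := (Finset.mem_filter.1 hi).2
    unfold pt
    beta_reduce
    rw [if_neg h3, Int.cast_one]
    ring
  obtain ⟨h3, hs3, hr4⟩ := Pool.Agent.ND.H22.phi_top hGL D g hgs (hg ▸ hNdp σ F κ N hND D.pos D.ge)
    hm0 hβ h2 (by
      intro i hi m hm
      obtain ⟨h4, k, h5, v, hv, h6⟩ := hs1 i hi m (hs2 i hm)
      exact ⟨(hh v hv _ h6).2.2 h5, h4⟩) hr3
  refine ⟨h3, fun k hk m hm => ?_, ?_⟩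
  · obtain ⟨h4, h5, h6⟩ := hs3 k m hm
    refine ⟨h4, ?_, fun i hi hik => (h5 i hi).2 hik⟩
    have h7 : ∑ i, (κ i : ℝ) * pt p (fun i => if κ i = 0 then (0 : ℤ) else 1) i =
        ∑ i, (κ i : ℝ) * p i := by
      refine Finset.sum_congr rfl fun i _ => ?_
      by_cases h8 : κ i = 0
      · rw [h8, Nat.cast_zero, zero_mul, zero_mul]
      · unfold pt
        beta_reduce
        rw [if_neg h8, Int.cast_one]
        ring
    rw [h7] at h6
    linarith
  · rw [← hg]
    exact hr4.symm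

/-- block R from block G and block C -/
theorem res (hGL : GLStmt) (hCho : ChoStmt) : RESStmt :=
  res_of hGL hCho (H99R.rah H45.rai) (H70.con H15.mwe) H26.dlt H2.prz H15.dsc H24.ndp_

end Pool.Agent.NDR.H56
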